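import Mathlib

/-! Automatic continuity of surjective homomorphisms between algebras of operators. -/

open Filter Topology

namespace Pool.Agent.Shai

variable {𝕜 : Type*} [RCLike 𝕜]
variable {E : Type*} [NormedAddCommGroup E] [NormedSpace 𝕜 E]
variable {Y : Type*} [NormedAddCommGroup Y] [NormedSpace 𝕜 Y]

theorem map_one_of_surj (ψ : (E →L[𝕜] E) →ₙₐ[𝕜] (Y →L[𝕜] Y)) (hψ : Function.Surjective ψ) :
    ψ 1 = 1 := by
  obtain ⟨T, hT⟩ := hψ 1
  have h1 : ψ (1 * T) = ψ 1 * ψ T := map_mul ψ 1 T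
  rw [one_mul, hT, mul_one] at h1
  exact h1.symm

theorem autoCont [CompleteSpace E] [CompleteSpace Y]
    (ψ : (E →L[𝕜] E) →ₙₐ[𝕜] (Y →L[𝕜] Y)) (hψ : Function.Surjective ψ) :
    ∃ C : ℝ, 0 < C ∧ ∀ T, ‖ψ T‖ ≤ C * ‖T‖ := by
  have hone := map_one_of_surj ψ hψ
  -- the linear map underlying `ψ`
  let L : (E →L[𝕜] E) →ₗ[𝕜] (Y →L[𝕜] Y) :=
    { toFun := ψ
      map_add' := map_add ψ
      map_smul' := fun c x => map_smul ψ c x }
  have hL : ∀ T, L T = ψ T := fun T => rfl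
  -- key: nothing nonzero is in the separating space
  have key : ∀ (T : ℕ → (E →L[𝕜] E)) (b : Y →L[𝕜] Y), Tendsto T atTop (𝓝 0) →
      Tendsto (fun n => ψ (T n)) atTop (𝓝 b) → b = 0 := by
    intro T b hT hb
    by_contra hne
    obtain ⟨y, hy⟩ : ∃ y, b y ≠ 0 := by
      by_contra hcon
      push Not at hcon
      exact hne (ContinuousLinearMap.ext hcon)
    set y0 := b y with hy0
    obtain ⟨f, hf⟩ : ∃ f : Y →L[𝕜] 𝕜, f y0 = 1 := by
      obtain ⟨g, hg1, hg2⟩ := exists_dual_vector 𝕜 y0 (norm_ne_zero_iff.mpr hy)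
      have hne0 : (g y0) ≠ 0 := by
        rw [hg2]
        exact_mod_cast (norm_ne_zero_iff.mpr hy)
      refine ⟨(g y0)⁻¹ • g, ?_⟩
      simp [hne0]
    obtain ⟨Q, hQ⟩ := hψ (f.smulRight y0)
    obtain ⟨V, hV⟩ := hψ (f.smulRight y)
    -- scalars
    have hlam : Tendsto (fun n => f (ψ (T n) y)) atTop (𝓝 1) := by
      have h1 : Tendsto (fun n => ψ (T n) y) atTop (𝓝 (b y)) := by
        have := ((ContinuousLinearMap.apply 𝕜 Y y).continuous.tendsto b).comp hb
        exact this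
      have h2 := (f.continuous.tendsto (b y)).comp h1
      rw [← hy0, hf] at h2
      exact h2
    have hprod : ∀ n, ψ (Q * T n * V) = (f (ψ (T n) y)) • f.smulRight y0 := by
      intro n
      rw [map_mul, map_mul, hQ, hV]
      ext z
      simp [smul_smul, mul_comm]
    have hsmall : Tendsto (fun n => (f (ψ (T n) y))⁻¹ • (Q * T n * V)) atTop (𝓝 0) := by
      have h1 : Tendsto (fun n => (f (ψ (T n) y))⁻¹) atTop (𝓝 (1 : 𝕜)⁻¹) :=
        hlam.inv₀ one_ne_zero
      have h2 : Tendsto (fun n => Q * T n * V) atTop (𝓝 (Q * 0 * V)) :=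
        (tendsto_const_nhds.mul hT).mul tendsto_const_nhds
      have h3 := h1.smul h2
      simpa using h3
    have hev : ∀ᶠ n in atTop, f (ψ (T n) y) ≠ 0 :=
      hlam.eventually_ne one_ne_zero
    have hev2 : ∀ᶠ n in atTop, ‖(f (ψ (T n) y))⁻¹ • (Q * T n * V)‖ < 1 := by
      have := hsmall.norm
      rw [norm_zero] at this
      exact this.eventually (gt_mem_nhds one_pos)
    obtain ⟨n, hn1, hn2⟩ := (hev.and hev2).exists
    set T' := (f (ψ (T n) y))⁻¹ • (Q * T n * V) with hT'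
    have hψT' : ψ T' = f.smulRight y0 := by
      rw [hT', map_smul, hprod, smul_smul, inv_mul_cancel₀ hn1, one_smul]
    obtain ⟨W, hW⟩ : ∃ W : E →L[𝕜] E, W * (1 - T') = 1 :=
      ⟨((Units.oneSub T' hn2)⁻¹ : (E →L[𝕜] E)ˣ), by
        have := (Units.oneSub T' hn2).inv_mul
        exact this⟩
    have h4 : ψ W * (1 - f.smulRight y0) = 1 := by
      rw [← hψT', ← hone, ← map_sub, ← map_mul, hW]
    have h5 : (1 - f.smulRight y0 : Y →L[𝕜] Y) y0 = 0 := by
      simp [hf]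
    have h6 : (ψ W * (1 - f.smulRight y0)) y0 = y0 := by
      rw [h4]; rfl
    apply hy
    rw [← h6]
    change ψ W ((1 - f.smulRight y0 : Y →L[𝕜] Y) y0) = 0
    rw [h5, map_zero]
  have hcont : Continuous L := by
    apply LinearMap.continuous_of_seq_closed_graph
    intro u x y hu hy
    have h1 : Tendsto (fun n => u n - x) atTop (𝓝 0) := by
      have := hu.sub_const x
      simpa using this
    have h2 : Tendsto (fun n => ψ (u n - x)) atTop (𝓝 (y - ψ x)) := by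
      have h3 : Tendsto (fun n => ψ (u n) - ψ x) atTop (𝓝 (y - ψ x)) := by
        have := hy.sub_const (ψ x)
        exact this
      refine h3.congr (fun n => ?_)
      rw [map_sub]
    have h3 := key _ _ h1 h2
    exact sub_eq_zero.mp h3
  let Lc : (E →L[𝕜] E) →L[𝕜] (Y →L[𝕜] Y) := ⟨L, hcont⟩
  refine ⟨‖Lc‖ + 1, by positivity, fun T => ?_⟩
  have := Lc.le_opNorm T
  calc ‖ψ T‖ = ‖Lc T‖ := rfl
    _ ≤ ‖Lc‖ * ‖T‖ := this
    _ ≤ (‖Lc‖ + 1) * ‖T‖ := by
      apply mul_le_mul_of_nonneg_right (by linarith) (norm_nonneg _)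

end Pool.Agent.Shai
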