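import Mathlib

/-! Combinatorial lemmas: a Rosenthal-type lemma and a large eventually different family. -/

open Cardinal Set

namespace Pool.Agent.Shai

universe u

/-- A Rosenthal-type disjointification lemma for superadditive set functions. -/
theorem rosenthal {Δ : Type u} (θ : Δ × Δ ≃ Δ) (v : Δ → Set Δ → ℝ)
    (hv0 : ∀ ξ D, 0 ≤ v ξ D)
    (hadd : ∀ ξ D₁ D₂, Disjoint D₁ D₂ → v ξ D₁ + v ξ D₂ ≤ v ξ (D₁ ∪ D₂))
    (ε : ℝ) (hε : 0 < ε) (K : ℝ) (hK : ∀ ξ D, v ξ D ≤ K) :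
    ∃ g : Δ → Δ, Function.Injective g ∧ ∀ ξ, v (g ξ) (range g \ {g ξ}) ≤ ε := by
  have hmono : ∀ ξ D₁ D₂, D₁ ⊆ D₂ → v ξ D₁ ≤ v ξ D₂ := by
    intro ξ D₁ D₂ h
    have h1 := hadd ξ D₁ (D₂ \ D₁) disjoint_sdiff_right
    rw [union_sdiff_cancel h] at h1
    linarith [hv0 ξ (D₂ \ D₁)]
  have main : ∀ m : ℕ, ∀ g : Δ → Δ, Function.Injective g →
      (∀ ξ, v (g ξ) (range g \ {g ξ}) ≤ m * ε) →
      ∃ g : Δ → Δ, Function.Injective g ∧ ∀ ξ, v (g ξ) (range g \ {g ξ}) ≤ ε := by
    intro m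
    induction m with
    | zero =>
      intro g hg h
      refine ⟨g, hg, fun ξ => (h ξ).trans ?_⟩
      simp [hε.le]
    | succ m ih =>
      intro g hg h
      by_cases hp : ∃ p, ∀ β, v (g (θ (p, β))) (range (fun β => g (θ (p, β))) \ {g (θ (p, β))}) ≤ ε
      · obtain ⟨p, hp⟩ := hp
        refine ⟨fun β => g (θ (p, β)), ?_, hp⟩
        intro a b hab
        have := θ.injective (hg hab)
        exact (Prod.mk.inj this).2
      · push Not at hp
        choose b hb using hp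
        apply ih (fun p => g (θ (p, b p)))
        · intro p q hpq
          have := θ.injective (hg hpq)
          exact (Prod.mk.inj this).1
        · intro p
          have hdisj : Disjoint (range (fun p => g (θ (p, b p))) \ {g (θ (p, b p))})
              (range (fun β => g (θ (p, β))) \ {g (θ (p, b p))}) := by
            rw [Set.disjoint_left]
            rintro _ ⟨⟨q, rfl⟩, hq⟩ ⟨⟨β, hβ⟩, _⟩
            have h1 := θ.injective (hg hβ)
            have h2 := (Prod.mk.inj h1).1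
            apply hq
            simp only [h2, mem_singleton_iff]
          have h1 := hadd (g (θ (p, b p))) _ _ hdisj
          have h2 : (range (fun p => g (θ (p, b p))) \ {g (θ (p, b p))}) ∪
              (range (fun β => g (θ (p, β))) \ {g (θ (p, b p))}) ⊆
              range g \ {g (θ (p, b p))} := by
            rintro x (⟨⟨q, rfl⟩, hq⟩ | ⟨⟨q, rfl⟩, hq⟩)
            · exact ⟨⟨_, rfl⟩, hq⟩
            · exact ⟨⟨_, rfl⟩, hq⟩
          have h3 := hmono (g (θ (p, b p))) _ _ h2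
          have h4 := h (θ (p, b p))
          have h5 := hb p
          push_cast at h4
          linarith
  obtain ⟨m, hm⟩ := exists_nat_gt (K / ε)
  apply main m id Function.injective_id
  intro ξ
  have : K ≤ m * ε := by
    rw [div_lt_iff₀ hε] at hm
    exact hm.le
  exact (hK _ _).trans this

/-- Diagonalisation. -/
theorem exists_diag (Δ : Type u) (hinf : ℵ₀ ≤ #Δ) (e : Δ → (Δ → Δ)) :
    ∃ f : Δ → Δ, ∀ i, #{β | f β = e i β} < #Δ := by
  obtain ⟨φ⟩ : Nonempty (Δ ≃ (#Δ).ord.ToType) := by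
    rw [← Cardinal.eq]
    simp
  have h1 : ∀ β : Δ, ∃ y : Δ, y ∉ (fun i => e i β) '' (φ ⁻¹' (Iio (φ β))) := by
    intro β
    by_contra hcon
    push Not at hcon
    have h2 : (univ : Set Δ) ⊆ (fun i => e i β) '' (φ ⁻¹' (Iio (φ β))) := fun y _ => hcon y
    have h3 : #Δ ≤ #((fun i => e i β) '' (φ ⁻¹' (Iio (φ β)))) :=
      mk_univ.symm.le.trans (mk_le_mk_of_subset h2)
    have h4 : #((fun i => e i β) '' (φ ⁻¹' (Iio (φ β)))) ≤ #(φ ⁻¹' (Iio (φ β))) := mk_image_le
    have h5 : #(φ ⁻¹' (Iio (φ β))) ≤ #(Iio (φ β)) :=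
      mk_preimage_of_injective _ _ φ.injective
    have h6 : #(Iio (φ β)) < #Δ := by simpa using mk_Iio_lt (φ β)
    exact absurd h3 (not_le.mpr (lt_of_le_of_lt (h4.trans h5) h6))
  choose f hf using h1
  refine ⟨f, fun i => ?_⟩
  have h2 : {β | f β = e i β} ⊆ φ ⁻¹' (Iic (φ i)) := by
    intro β hβ
    by_contra hcon
    have h3 : φ i < φ β := not_le.mp hcon
    exact hf β ⟨i, h3, hβ.symm⟩
  have h3 : #{β | f β = e i β} ≤ #(Iic (φ i)) :=
    (mk_le_mk_of_subset h2).trans (mk_preimage_of_injective _ _ φ.injective)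
  refine lt_of_le_of_lt h3 ?_
  have h4 : #(Iic (φ i)) ≤ #(Iio (φ i)) + 1 := by
    rw [← Iio_insert]
    exact mk_insert_le
  refine lt_of_le_of_lt h4 ?_
  have h6 : #(Iio (φ i)) < #Δ := by simpa using mk_Iio_lt (φ i)
  exact add_lt_of_lt hinf h6 (lt_of_lt_of_le one_lt_aleph0 hinf)

/-- There are more than `#Δ` functions `Δ → Δ` pairwise agreeing on fewer than `#Δ` points. -/
theorem exists_family (Δ : Type u) (hinf : ℵ₀ ≤ #Δ) :
    ∃ G : Set (Δ → Δ), #Δ < #G ∧
      ∀ f ∈ G, ∀ g ∈ G, f ≠ g → #{β | f β = g β} < #Δ := by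
  classical
  obtain ⟨G, hG⟩ := zorn_subset
    {G : Set (Δ → Δ) | ∀ f ∈ G, ∀ g ∈ G, f ≠ g → #{β | f β = g β} < #Δ} (by
      intro c hc hchain
      refine ⟨⋃₀ c, ?_, fun s hs => subset_sUnion_of_mem hs⟩
      rintro f ⟨s, hs, hfs⟩ g ⟨t, ht, hgt⟩ hfg
      rcases hchain.total hs ht with h | h
      · exact hc ht f (h hfs) g hgt hfg
      · exact hc hs f hfs g (h hgt) hfg)
  refine ⟨G, ?_, hG.prop⟩
  by_contra hcon
  rw [not_lt] at hcon
  obtain ⟨φ⟩ : Nonempty (G ↪ Δ) := hcon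
  let e : Δ → (Δ → Δ) := fun i => if h : ∃ g : G, φ g = i then (h.choose : Δ → Δ) else id
  have he : ∀ g ∈ G, ∃ i, e i = g := by
    intro g hg
    refine ⟨φ ⟨g, hg⟩, ?_⟩
    have h : ∃ g' : G, φ g' = φ ⟨g, hg⟩ := ⟨⟨g, hg⟩, rfl⟩
    have h1 : e (φ ⟨g, hg⟩) = (h.choose : Δ → Δ) := dif_pos h
    have h2 := φ.injective h.choose_spec
    rw [h1, h2]
  obtain ⟨f, hf⟩ := exists_diag Δ hinf e
  have hfG : ∀ g ∈ G, #{β | f β = g β} < #Δ := by
    intro g hg
    obtain ⟨i, rfl⟩ := he g hg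
    exact hf i
  have hmem : f ∉ G := by
    intro hfmem
    have := hfG f hfmem
    simp at this
  have hmax := hG.le_of_ge (y := insert f G) (by
    intro a ha b hb hab
    rcases ha with rfl | ha
    · rcases hb with rfl | hb
      · exact absurd rfl hab
      · exact hfG b hb
    · rcases hb with rfl | hb
      · have := hfG a ha
        have hset : {β | a β = b β} = {β | b β = a β} := by
          ext β; exact eq_comm
        rw [hset]
        exact this
      · exact hG.prop a ha b hb hab) (subset_insert f G)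
  exact hmem (hmax (mem_insert f G))

end Pool.Agent.Shai
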