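import Mathlib

/-! Weighted composition operators on spaces of bounded functions. -/

open scoped ENNReal
open Cardinal

namespace Pool.Agent.Shai

/-- The Banach space of bounded scalar functions on a set, with the supremum norm. -/
abbrev LI (𝕜 : Type*) [RCLike 𝕜] (Δ : Type*) := lp (fun _ : Δ => 𝕜) ∞

variable {𝕜 : Type*} [RCLike 𝕜]
variable {Δ Δ' Δ'' : Type*}

theorem LI.norm_apply_le (x : LI 𝕜 Δ) (i : Δ) : ‖x i‖ ≤ ‖x‖ :=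
  lp.norm_apply_le_norm ENNReal.top_ne_zero x i

theorem LI.norm_le {x : LI 𝕜 Δ} {C : ℝ} (hC : 0 ≤ C) (h : ∀ i, ‖x i‖ ≤ C) : ‖x‖ ≤ C :=
  lp.norm_le_of_forall_le hC h

theorem LI.ext {x y : LI 𝕜 Δ} (h : ∀ i, x i = y i) : x = y :=
  lp.ext (funext h)

theorem LI.opExt {S T : LI 𝕜 Δ →L[𝕜] LI 𝕜 Δ'} (h : ∀ x i, S x i = T x i) : S = T :=
  ContinuousLinearMap.ext fun x => LI.ext (h x)

@[simp] theorem LI.add_apply (x y : LI 𝕜 Δ) (i : Δ) : (x + y) i = x i + y i := rfl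
@[simp] theorem LI.sub_apply (x y : LI 𝕜 Δ) (i : Δ) : (x - y) i = x i - y i := rfl
@[simp] theorem LI.smul_apply (c : 𝕜) (x : LI 𝕜 Δ) (i : Δ) : (c • x) i = c * x i := rfl
@[simp] theorem LI.zero_apply (i : Δ) : (0 : LI 𝕜 Δ) i = 0 := rfl
@[simp] theorem LI.neg_apply (x : LI 𝕜 Δ) (i : Δ) : (-x) i = -x i := rfl

/-- A bounded function as an element of the space. -/
def LI.mk (f : Δ → 𝕜) (C : ℝ) (hf : ∀ i, ‖f i‖ ≤ C) : LI 𝕜 Δ :=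
  ⟨f, memℓp_infty ⟨C, by rintro _ ⟨i, rfl⟩; exact hf i⟩⟩

@[simp] theorem LI.mk_apply (f : Δ → 𝕜) (C : ℝ) (hf : ∀ i, ‖f i‖ ≤ C) (i : Δ) :
    LI.mk f C hf i = f i := rfl

theorem LI.norm_mk_le (f : Δ → 𝕜) {C : ℝ} (hC : 0 ≤ C) (hf : ∀ i, ‖f i‖ ≤ C) :
    ‖LI.mk f C hf‖ ≤ C := LI.norm_le hC hf

theorem wc_aux (h : Δ' → Δ) (w : Δ' → 𝕜) (hw : ∀ i, ‖w i‖ ≤ 1) (x : LI 𝕜 Δ) (i : Δ') :
    ‖w i * x (h i)‖ ≤ ‖x‖ := by
  rw [norm_mul]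
  calc ‖w i‖ * ‖x (h i)‖ ≤ 1 * ‖x‖ :=
        mul_le_mul (hw i) (LI.norm_apply_le x _) (norm_nonneg _) zero_le_one
    _ = ‖x‖ := one_mul _

/-- The weighted composition operator `x ↦ (i ↦ w i * x (h i))`. -/
noncomputable def wc (h : Δ' → Δ) (w : Δ' → 𝕜) (hw : ∀ i, ‖w i‖ ≤ 1) :
    LI 𝕜 Δ →L[𝕜] LI 𝕜 Δ' :=
  LinearMap.mkContinuous
    { toFun := fun x => LI.mk (fun i => w i * x (h i)) ‖x‖ (wc_aux h w hw x)
      map_add' := by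
        intro x y
        apply LI.ext
        intro i
        simp [mul_add]
      map_smul' := by
        intro c x
        apply LI.ext
        intro i
        simp [mul_left_comm] }
    1 (by
      intro x
      rw [one_mul]
      exact LI.norm_mk_le _ (norm_nonneg _) (wc_aux h w hw x))

@[simp] theorem wc_apply (h : Δ' → Δ) (w : Δ' → 𝕜) (hw : ∀ i, ‖w i‖ ≤ 1) (x : LI 𝕜 Δ) (i : Δ') :
    wc h w hw x i = w i * x (h i) := rfl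

theorem norm_wc_le (h : Δ' → Δ) (w : Δ' → 𝕜) (hw : ∀ i, ‖w i‖ ≤ 1) : ‖wc h w hw‖ ≤ 1 :=
  LinearMap.mkContinuous_norm_le _ zero_le_one _

theorem norm_one_le (i : Δ) : ‖(fun _ => (1 : 𝕜) : Δ → 𝕜) i‖ ≤ 1 := by simp

variable (𝕜) in
open Classical in
theorem ind_le (A : Set Δ) (i : Δ) : ‖(fun i => if i ∈ A then (1 : 𝕜) else 0) i‖ ≤ 1 := by
  by_cases h : i ∈ A <;> simp [h]

variable (𝕜) in
open Classical in
/-- Multiplication by the indicator of `A`. -/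
noncomputable def mulI (A : Set Δ) : LI 𝕜 Δ →L[𝕜] LI 𝕜 Δ :=
  wc id (fun i => if i ∈ A then (1 : 𝕜) else 0) (ind_le 𝕜 A)

open Classical in
theorem mulI_apply (A : Set Δ) (x : LI 𝕜 Δ) (i : Δ) :
    mulI 𝕜 A x i = if i ∈ A then x i else 0 := by
  simp [mulI]

theorem mulI_apply_mem {A : Set Δ} (x : LI 𝕜 Δ) {i : Δ} (hi : i ∈ A) :
    mulI 𝕜 A x i = x i := by
  simp [mulI_apply, hi]

theorem mulI_apply_not_mem {A : Set Δ} (x : LI 𝕜 Δ) {i : Δ} (hi : i ∉ A) :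
    mulI 𝕜 A x i = 0 := by
  simp [mulI_apply, hi]

theorem norm_mulI_le (A : Set Δ) : ‖mulI 𝕜 A‖ ≤ 1 := norm_wc_le _ _ _

theorem mulI_univ : mulI 𝕜 (Set.univ : Set Δ) = 1 := by
  apply LI.opExt
  intro x i
  simp [mulI_apply]

theorem mulI_mul (A B : Set Δ) : mulI 𝕜 A * mulI 𝕜 B = mulI 𝕜 (A ∩ B) := by
  apply LI.opExt
  intro x i
  change mulI 𝕜 A (mulI 𝕜 B x) i = _
  by_cases h1 : i ∈ A <;> by_cases h2 : i ∈ B <;> simp [mulI_apply, h1, h2]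

theorem mulI_union_disj {A B : Set Δ} (hAB : Disjoint A B) :
    mulI 𝕜 (A ∪ B) = mulI 𝕜 A + mulI 𝕜 B := by
  apply LI.opExt
  intro x i
  change _ = mulI 𝕜 A x i + mulI 𝕜 B x i
  by_cases h1 : i ∈ A
  · have h2 : i ∉ B := fun h2 => (Set.disjoint_left.mp hAB) h1 h2
    simp [mulI_apply, h1, h2]
  · by_cases h2 : i ∈ B <;> simp [mulI_apply, h1, h2]

end Pool.Agent.Shai
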