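import Mathlib
import Pool.Agent.shai.Wc
import Pool.Agent.shai.Comb

/-! The factorisation of the idempotent through the space of bounded functions. -/

open scoped ENNReal
open Cardinal

namespace Pool.Agent.Shai

universe u v

variable {𝕜 : Type*} [RCLike 𝕜] {Δ : Type u}

/-- coordinate functional -/
noncomputable def ev (𝕜 : Type*) [RCLike 𝕜] {Δ : Type u} (i : Δ) : LI 𝕜 Δ →L[𝕜] 𝕜 :=
  LinearMap.mkContinuous
    { toFun := fun x => x i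
      map_add' := fun x y => rfl
      map_smul' := fun c x => rfl } 1 (by
      intro x
      rw [one_mul]
      exact LI.norm_apply_le x i)

@[simp] theorem ev_apply (i : Δ) (x : LI 𝕜 Δ) : ev 𝕜 i x = x i := rfl

theorem norm_ev_le (i : Δ) : ‖ev 𝕜 i‖ ≤ 1 := LinearMap.mkContinuous_norm_le _ zero_le_one _

/-- Superadditivity of the variation of a functional. -/
theorem superadd (μ : LI 𝕜 Δ →L[𝕜] 𝕜) (D₁ D₂ : Set Δ) (h : Disjoint D₁ D₂) :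
    ‖μ ∘L mulI 𝕜 D₁‖ + ‖μ ∘L mulI 𝕜 D₂‖ ≤ ‖μ ∘L mulI 𝕜 (D₁ ∪ D₂)‖ := by
  by_contra hcon
  rw [not_le] at hcon
  set N := ‖μ ∘L mulI 𝕜 (D₁ ∪ D₂)‖ with hN
  set n1 := ‖μ ∘L mulI 𝕜 D₁‖ with hn1
  set n2 := ‖μ ∘L mulI 𝕜 D₂‖ with hn2
  obtain ⟨x1, hx1, hx1'⟩ := ContinuousLinearMap.exists_lt_apply_of_lt_opNorm (μ ∘L mulI 𝕜 D₁)
    (r := n1 - (n1 + n2 - N) / 2) (by rw [← hn1]; linarith)
  obtain ⟨x2, hx2, hx2'⟩ := ContinuousLinearMap.exists_lt_apply_of_lt_opNorm (μ ∘L mulI 𝕜 D₂)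
    (r := n2 - (n1 + n2 - N) / 2) (by rw [← hn2]; linarith)
  obtain ⟨a1, ha1, ha1'⟩ := RCLike.exists_norm_eq_mul_self ((μ ∘L mulI 𝕜 D₁) x1)
  obtain ⟨a2, ha2, ha2'⟩ := RCLike.exists_norm_eq_mul_self ((μ ∘L mulI 𝕜 D₂) x2)
  have hz : mulI 𝕜 (D₁ ∪ D₂) (a1 • mulI 𝕜 D₁ x1 + a2 • mulI 𝕜 D₂ x2) =
      a1 • mulI 𝕜 D₁ x1 + a2 • mulI 𝕜 D₂ x2 := by
    apply LI.ext
    intro i
    by_cases h1 : i ∈ D₁ <;> by_cases h2 : i ∈ D₂ <;> simp [mulI_apply, h1, h2]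
  have hnz : ‖a1 • mulI 𝕜 D₁ x1 + a2 • mulI 𝕜 D₂ x2‖ ≤ 1 := by
    apply LI.norm_le zero_le_one
    intro i
    by_cases h1 : i ∈ D₁
    · have h2 : i ∉ D₂ := fun h2 => Set.disjoint_left.mp h h1 h2
      simp only [LI.add_apply, LI.smul_apply, mulI_apply, h1, h2, if_true, if_false, mul_zero,
        add_zero, norm_mul, ha1, one_mul]
      exact (LI.norm_apply_le x1 i).trans hx1.le
    · by_cases h2 : i ∈ D₂
      · simp only [LI.add_apply, LI.smul_apply, mulI_apply, h1, h2, if_true, if_false, mul_zero,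
          zero_add, norm_mul, ha2, one_mul]
        exact (LI.norm_apply_le x2 i).trans hx2.le
      · simp [LI.add_apply, LI.smul_apply, mulI_apply, h1, h2]
  have hval : μ (a1 • mulI 𝕜 D₁ x1 + a2 • mulI 𝕜 D₂ x2) =
      ((‖(μ ∘L mulI 𝕜 D₁) x1‖ + ‖(μ ∘L mulI 𝕜 D₂) x2‖ : ℝ) : 𝕜) := by
    rw [map_add, map_smul, map_smul, RCLike.ofReal_add, ha1', ha2']
    rfl
  have h1 : ‖(μ ∘L mulI 𝕜 (D₁ ∪ D₂)) (a1 • mulI 𝕜 D₁ x1 + a2 • mulI 𝕜 D₂ x2)‖ ≤ N * 1 :=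
    ((μ ∘L mulI 𝕜 (D₁ ∪ D₂)).le_opNorm _).trans
      (mul_le_mul_of_nonneg_left hnz (norm_nonneg _))
  rw [ContinuousLinearMap.comp_apply, hz, hval, RCLike.norm_ofReal, abs_of_nonneg (by positivity),
    mul_one] at h1
  linarith

section

variable (θ : Δ × Δ ≃ Δ)

variable (𝕜) in
open Classical in
/-- embedding into a block -/
noncomputable def blkU (ξ : Δ) : LI 𝕜 Δ →L[𝕜] LI 𝕜 Δ :=
  wc (fun γ => (θ.symm γ).2) (fun γ => if (θ.symm γ).1 = ξ then (1 : 𝕜) else 0) (by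
    intro γ
    by_cases h : (θ.symm γ).1 = ξ <;> simp [h])

variable (𝕜) in
/-- restriction to a block -/
noncomputable def blkR (ξ : Δ) : LI 𝕜 Δ →L[𝕜] LI 𝕜 Δ :=
  wc (fun β => θ (ξ, β)) (fun _ => (1 : 𝕜)) norm_one_le

theorem blkR_apply (ξ : Δ) (x : LI 𝕜 Δ) (β : Δ) : blkR 𝕜 θ ξ x β = x (θ (ξ, β)) := by
  simp [blkR]

open Classical in
theorem blkU_apply (ξ : Δ) (x : LI 𝕜 Δ) (γ : Δ) :
    blkU 𝕜 θ ξ x γ = if (θ.symm γ).1 = ξ then x (θ.symm γ).2 else 0 := by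
  simp [blkU]

theorem opV_aux (a x : LI 𝕜 Δ) (γ : Δ) :
    ‖a (θ.symm γ).1 * x (θ.symm γ).2‖ ≤ ‖a‖ * ‖x‖ := by
  rw [norm_mul]
  exact mul_le_mul (LI.norm_apply_le a _) (LI.norm_apply_le x _) (norm_nonneg _) (norm_nonneg _)

/-- the operator putting `a ξ • x` in block `ξ` -/
noncomputable def opV (a : LI 𝕜 Δ) : LI 𝕜 Δ →L[𝕜] LI 𝕜 Δ :=
  LinearMap.mkContinuous
    { toFun := fun x => LI.mk (fun γ => a (θ.symm γ).1 * x (θ.symm γ).2) (‖a‖ * ‖x‖)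
        (opV_aux θ a x)
      map_add' := by
        intro x y
        apply LI.ext
        intro i
        simp [mul_add]
      map_smul' := by
        intro c x
        apply LI.ext
        intro i
        simp [mul_left_comm] }
    ‖a‖ (by
      intro x
      exact LI.norm_mk_le _ (by positivity) (opV_aux θ a x))

@[simp] theorem opV_apply (a x : LI 𝕜 Δ) (γ : Δ) :
    opV θ a x γ = a (θ.symm γ).1 * x (θ.symm γ).2 := rfl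

theorem norm_opV_le (a : LI 𝕜 Δ) : ‖opV θ a‖ ≤ ‖a‖ :=
  LinearMap.mkContinuous_norm_le _ (norm_nonneg _) _

theorem opV_add (a b : LI 𝕜 Δ) : opV θ (a + b) = opV θ a + opV θ b := by
  apply LI.opExt
  intro x i
  change opV θ (a + b) x i = opV θ a x i + opV θ b x i
  simp [add_mul]

theorem opV_smul (c : 𝕜) (a : LI 𝕜 Δ) : opV θ (c • a) = c • opV θ a := by
  apply LI.opExt
  intro x i
  change opV θ (c • a) x i = c * opV θ a x i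
  simp [mul_assoc]

theorem blkR_opV (ξ : Δ) (a : LI 𝕜 Δ) : blkR 𝕜 θ ξ * opV θ a = a ξ • 1 := by
  apply LI.opExt
  intro x i
  change blkR 𝕜 θ ξ (opV θ a x) i = a ξ * x i
  simp [blkR_apply]

theorem blkR_blkU_self (ξ : Δ) : blkR 𝕜 θ ξ * blkU 𝕜 θ ξ = 1 := by
  apply LI.opExt
  intro x i
  change blkR 𝕜 θ ξ (blkU 𝕜 θ ξ x) i = x i
  simp [blkR_apply, blkU_apply]

theorem blkR_blkU_ne {ξ η : Δ} (h : ξ ≠ η) : blkR 𝕜 θ ξ * blkU 𝕜 θ η = 0 := by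
  apply LI.opExt
  intro x i
  change blkR 𝕜 θ ξ (blkU 𝕜 θ η x) i = 0
  simp [blkR_apply, blkU_apply, h]

variable {Y : Type v} [NormedAddCommGroup Y] [NormedSpace 𝕜 Y]

theorem exists_tau (θ : Δ × Δ ≃ Δ) (Ψ : (LI 𝕜 Δ →L[𝕜] LI 𝕜 Δ) →ₙₐ[𝕜] (Y →L[𝕜] Y)) (C : ℝ)
    (hinf : ℵ₀ ≤ #Δ) (hC : 0 < C) (hΨ : ∀ S, ‖Ψ S‖ ≤ C * ‖S‖) (hp : Ψ 1 ≠ 0)
    (hsurj : ∀ T : Y →L[𝕜] Y, Ψ 1 * T * Ψ 1 = T → ∃ E, Ψ E = T) :
    ∃ (τ : Y →L[𝕜] LI 𝕜 Δ) (κ : LI 𝕜 Δ →L[𝕜] Y), κ ∘L τ = Ψ 1 := by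
  classical
  have hne : Nonempty Δ := by
    rw [← mk_ne_zero_iff]
    intro h
    rw [h] at hinf
    exact absurd hinf (not_le.mpr aleph0_pos)
  have hmul : ∀ S T y, Ψ (S * T) y = Ψ S (Ψ T y) := by
    intro S T y
    rw [map_mul]
    rfl
  -- the vector and the functional
  obtain ⟨y0, hy0⟩ : ∃ y, Ψ 1 y ≠ 0 := by
    by_contra hcon
    push Not at hcon
    exact hp (ContinuousLinearMap.ext hcon)
  set y1 := Ψ 1 y0 with hy1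
  have hpy1 : Ψ 1 y1 = y1 := by
    rw [hy1, ← hmul, mul_one]
  obtain ⟨f1, hf1, hf1p⟩ : ∃ f : Y →L[𝕜] 𝕜, f y1 = 1 ∧ ∀ y, f (Ψ 1 y) = f y := by
    obtain ⟨g, hg1, hg2⟩ := exists_dual_vector 𝕜 y1 (norm_ne_zero_iff.mpr hy0)
    have hne0 : (g y1) ≠ 0 := by
      rw [hg2]
      exact_mod_cast (norm_ne_zero_iff.mpr hy0)
    refine ⟨(g y1)⁻¹ • (g ∘L Ψ 1), ?_, ?_⟩
    · change (g y1)⁻¹ * g (Ψ 1 y1) = 1
      rw [hpy1, inv_mul_cancel₀ hne0]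
    · intro y
      change (g y1)⁻¹ * g (Ψ 1 (Ψ 1 y)) = (g y1)⁻¹ * g (Ψ 1 y)
      rw [← hmul, mul_one]
  have hR : ∀ ξ, ‖blkR 𝕜 θ ξ‖ ≤ 1 := fun ξ => norm_wc_le _ _ _
  -- the maps j and r
  let j : LI 𝕜 Δ →L[𝕜] Y := LinearMap.mkContinuous
    { toFun := fun a => Ψ (opV θ a) y1
      map_add' := by
        intro a b
        rw [opV_add, map_add]
        rfl
      map_smul' := by
        intro c a
        rw [opV_smul, map_smul]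
        rfl } (C * ‖y1‖) (by
      intro a
      calc ‖Ψ (opV θ a) y1‖ ≤ ‖Ψ (opV θ a)‖ * ‖y1‖ := (Ψ (opV θ a)).le_opNorm _
        _ ≤ (C * ‖opV θ a‖) * ‖y1‖ := mul_le_mul_of_nonneg_right (hΨ _) (norm_nonneg _)
        _ ≤ (C * ‖a‖) * ‖y1‖ := by
          apply mul_le_mul_of_nonneg_right _ (norm_nonneg _)
          exact mul_le_mul_of_nonneg_left (norm_opV_le θ a) hC.le
        _ = C * ‖y1‖ * ‖a‖ := by ring)
  have hj : ∀ a, j a = Ψ (opV θ a) y1 := fun a => rfl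
  have hraux : ∀ (y : Y) (ξ : Δ), ‖f1 (Ψ (blkR 𝕜 θ ξ) y)‖ ≤ ‖f1‖ * C * ‖y‖ := by
    intro y ξ
    calc ‖f1 (Ψ (blkR 𝕜 θ ξ) y)‖ ≤ ‖f1‖ * ‖Ψ (blkR 𝕜 θ ξ) y‖ := f1.le_opNorm _
      _ ≤ ‖f1‖ * (‖Ψ (blkR 𝕜 θ ξ)‖ * ‖y‖) :=
        mul_le_mul_of_nonneg_left ((Ψ (blkR 𝕜 θ ξ)).le_opNorm _) (norm_nonneg _)
      _ ≤ ‖f1‖ * ((C * 1) * ‖y‖) := by
        apply mul_le_mul_of_nonneg_left _ (norm_nonneg _)
        apply mul_le_mul_of_nonneg_right _ (norm_nonneg _)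
        exact (hΨ _).trans (mul_le_mul_of_nonneg_left (hR ξ) hC.le)
      _ = ‖f1‖ * C * ‖y‖ := by ring
  let r : Y →L[𝕜] LI 𝕜 Δ := LinearMap.mkContinuous
    { toFun := fun y => LI.mk (fun ξ => f1 (Ψ (blkR 𝕜 θ ξ) y)) (‖f1‖ * C * ‖y‖) (hraux y)
      map_add' := by
        intro x y
        apply LI.ext
        intro ξ
        simp
      map_smul' := by
        intro c y
        apply LI.ext
        intro ξ
        simp } (‖f1‖ * C) (by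
      intro y
      exact LI.norm_mk_le _ (by positivity) (hraux y))
  have hr : ∀ y ξ, r y ξ = f1 (Ψ (blkR 𝕜 θ ξ) y) := fun y ξ => rfl
  -- the idempotent e
  obtain ⟨E, hE⟩ := hsurj (j ∘L r) (by
    apply ContinuousLinearMap.ext
    intro y
    change Ψ 1 (j (r (Ψ 1 y))) = j (r y)
    have h1 : r (Ψ 1 y) = r y := by
      apply LI.ext
      intro ξ
      rw [hr, hr, ← hmul, mul_one]
    rw [h1, hj, ← hmul, one_mul])
  -- E does not vanish on blocks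
  have hblock : ∀ ξ, Ψ (blkR 𝕜 θ ξ * (E * blkU 𝕜 θ ξ)) y1 = y1 := by
    intro ξ
    have h1 : r (Ψ (blkU 𝕜 θ ξ) y1) =
        LI.mk (fun η => if η = ξ then (1 : 𝕜) else 0) 1 (by
          intro i; by_cases h : i = ξ <;> simp [h]) := by
      apply LI.ext
      intro η
      rw [hr, ← hmul]
      by_cases h : η = ξ
      · subst h
        rw [blkR_blkU_self, hpy1, hf1]
        simp
      · rw [blkR_blkU_ne θ h, map_zero]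
        simp [h]
    have h2 : opV θ (LI.mk (fun η => if η = ξ then (1 : 𝕜) else 0) 1 (by
          intro i; by_cases h : i = ξ <;> simp [h])) = blkU 𝕜 θ ξ := by
      apply LI.opExt
      intro x γ
      rw [opV_apply, blkU_apply, LI.mk_apply]
      by_cases h : (θ.symm γ).1 = ξ <;> simp [h]
    rw [hmul, hmul, hE, ContinuousLinearMap.comp_apply, h1, hj, h2, ← hmul, blkR_blkU_self, hpy1]
  have hy1n : 0 < ‖y1‖ := norm_pos_iff.mpr hy0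
  have hlow : ∀ ξ, 1 / (2 * C) < ‖E * blkU 𝕜 θ ξ‖ := by
    intro ξ
    have h1 : ‖y1‖ ≤ C * ‖E * blkU 𝕜 θ ξ‖ * ‖y1‖ := by
      calc ‖y1‖ = ‖Ψ (blkR 𝕜 θ ξ * (E * blkU 𝕜 θ ξ)) y1‖ := by rw [hblock]
        _ ≤ ‖Ψ (blkR 𝕜 θ ξ * (E * blkU 𝕜 θ ξ))‖ * ‖y1‖ := ContinuousLinearMap.le_opNorm _ _
        _ ≤ (C * ‖blkR 𝕜 θ ξ * (E * blkU 𝕜 θ ξ)‖) * ‖y1‖ :=
          mul_le_mul_of_nonneg_right (hΨ _) (norm_nonneg _)
        _ ≤ (C * (1 * ‖E * blkU 𝕜 θ ξ‖)) * ‖y1‖ := by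
          apply mul_le_mul_of_nonneg_right _ (norm_nonneg _)
          apply mul_le_mul_of_nonneg_left _ hC.le
          exact (norm_mul_le _ _).trans (mul_le_mul_of_nonneg_right (hR ξ) (norm_nonneg _))
        _ = C * ‖E * blkU 𝕜 θ ξ‖ * ‖y1‖ := by ring
    have h2 : 1 ≤ C * ‖E * blkU 𝕜 θ ξ‖ := by
      by_contra hcon
      rw [not_le] at hcon
      have := mul_lt_mul_of_pos_right hcon hy1n
      linarith
    rw [div_lt_iff₀ (by positivity)]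
    nlinarith
  set c0 : ℝ := 1 / (2 * C) with hc0
  have hc0pos : 0 < c0 := by positivity
  have hpick : ∀ ξ, ∃ (x : LI 𝕜 Δ) (α : Δ), ‖x‖ ≤ 1 ∧ c0 < ‖E (blkU 𝕜 θ ξ x) α‖ := by
    intro ξ
    obtain ⟨x, hx1, hx2⟩ := ContinuousLinearMap.exists_lt_apply_of_lt_opNorm _ (hlow ξ)
    refine ⟨x, ?_⟩
    by_contra hcon
    push Not at hcon
    have h1 : ‖E (blkU 𝕜 θ ξ x)‖ ≤ c0 := LI.norm_le hc0pos.le (fun α => hcon α hx1.le)
    exact absurd hx2 (not_lt.mpr h1)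
  choose x α hx hα using hpick
  -- apply Rosenthal's lemma
  obtain ⟨g, hginj, hg⟩ := rosenthal θ
    (fun ξ D => ‖(ev 𝕜 (α ξ) ∘L E) ∘L mulI 𝕜 {γ | (θ.symm γ).1 ∈ D}‖)
    (fun ξ D => norm_nonneg _)
    (by
      intro ξ D₁ D₂ hD
      have h1 : Disjoint {γ | (θ.symm γ).1 ∈ D₁} {γ | (θ.symm γ).1 ∈ D₂} := by
        rw [Set.disjoint_left]
        intro γ h1 h2
        exact Set.disjoint_left.mp hD h1 h2
      exact superadd (ev 𝕜 (α ξ) ∘L E) _ _ h1)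
    (c0 / 2) (by positivity) ‖E‖
    (by
      intro ξ D
      calc ‖(ev 𝕜 (α ξ) ∘L E) ∘L mulI 𝕜 {γ | (θ.symm γ).1 ∈ D}‖
          ≤ ‖ev 𝕜 (α ξ) ∘L E‖ * ‖mulI 𝕜 {γ | (θ.symm γ).1 ∈ D}‖ :=
            ContinuousLinearMap.opNorm_comp_le _ _
        _ ≤ ‖ev 𝕜 (α ξ) ∘L E‖ * 1 :=
            mul_le_mul_of_nonneg_left (norm_mulI_le _) (norm_nonneg _)
        _ ≤ (‖ev 𝕜 (α ξ)‖ * ‖E‖) * 1 :=
            mul_le_mul_of_nonneg_right (ContinuousLinearMap.opNorm_comp_le _ _) zero_le_one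
        _ ≤ (1 * ‖E‖) * 1 :=
            mul_le_mul_of_nonneg_right
              (mul_le_mul_of_nonneg_right (norm_ev_le _) (norm_nonneg _)) zero_le_one
        _ = ‖E‖ := by ring)
  -- the two operators
  let B : LI 𝕜 Δ →L[𝕜] LI 𝕜 Δ := wc (fun γ => Function.invFun g (θ.symm γ).1)
    (fun γ => if (θ.symm γ).1 ∈ Set.range g then x (θ.symm γ).1 (θ.symm γ).2 else 0) (by
      intro γ
      by_cases h : (θ.symm γ).1 ∈ Set.range g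
      · simp only [h, if_true]
        exact (LI.norm_apply_le _ _).trans (hx _)
      · simp [h])
  let A : LI 𝕜 Δ →L[𝕜] LI 𝕜 Δ := wc (fun ξ => α (g ξ))
    (fun ξ => (c0 : 𝕜) / (E (blkU 𝕜 θ (g ξ) (x (g ξ))) (α (g ξ)))) (by
      intro ξ
      have h1 := hα (g ξ)
      rw [norm_div, RCLike.norm_ofReal, abs_of_pos hc0pos, div_le_one (hc0pos.trans h1)]
      exact h1.le)
  have hBn : ‖B‖ ≤ 1 := norm_wc_le _ _ _
  have hsplit : ∀ (a : LI 𝕜 Δ) (ξ : Δ), B a = a ξ • blkU 𝕜 θ (g ξ) (x (g ξ)) +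
      mulI 𝕜 {γ | (θ.symm γ).1 ∈ Set.range g \ {g ξ}} (B a) := by
    intro a ξ
    apply LI.ext
    intro γ
    rw [LI.add_apply, LI.smul_apply, blkU_apply, mulI_apply]
    simp only [B, wc_apply, Set.mem_sdiff, Set.mem_singleton_iff]
    change _ = _ + (if ((θ.symm γ).1 ∈ Set.range g ∧ ¬ (θ.symm γ).1 = g ξ) then _ else _)
    by_cases h1 : (θ.symm γ).1 = g ξ
    · have h2 : (θ.symm γ).1 ∈ Set.range g := ⟨ξ, h1.symm⟩
      have h3 : Function.invFun g (g ξ) = ξ := Function.leftInverse_invFun hginj ξ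
      simp only [h2, h1, if_true, h3, not_true_eq_false, and_false, if_false, add_zero]
      rw [if_pos ⟨ξ, rfl⟩, mul_comm]
    · by_cases h2 : (θ.symm γ).1 ∈ Set.range g
      · simp only [h1, h2, if_true, if_false, mul_zero, zero_add, not_false_eq_true, and_self]
      · simp only [h1, h2, if_false, mul_zero, zero_add, zero_mul, false_and]
  have hS : ‖(1 : LI 𝕜 Δ →L[𝕜] LI 𝕜 Δ) - ((c0 : 𝕜)⁻¹ • A) * E * B‖ ≤ 1 / 2 := by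
    apply ContinuousLinearMap.opNorm_le_bound _ (by norm_num)
    intro a
    apply LI.norm_le (by positivity)
    intro ξ
    set D := {γ | (θ.symm γ).1 ∈ Set.range g \ {g ξ}} with hD
    set m := E (blkU 𝕜 θ (g ξ) (x (g ξ))) (α (g ξ)) with hm
    have hmpos : c0 < ‖m‖ := hα (g ξ)
    have hm0 : m ≠ 0 := norm_pos_iff.mp (hc0pos.trans hmpos)
    have hc0' : (c0 : 𝕜) ≠ 0 := by exact_mod_cast hc0pos.ne'
    have h1 : E (B a) (α (g ξ)) = a ξ * m + E (mulI 𝕜 D (B a)) (α (g ξ)) := by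
      conv_lhs => rw [hsplit a ξ]
      rw [map_add, map_smul]
      rfl
    have h2 : ((1 : LI 𝕜 Δ →L[𝕜] LI 𝕜 Δ) - ((c0 : 𝕜)⁻¹ • A) * E * B) a ξ =
        - (m⁻¹ * E (mulI 𝕜 D (B a)) (α (g ξ))) := by
      change a ξ - (c0 : 𝕜)⁻¹ * (((c0 : 𝕜) / m) * (E (B a)) (α (g ξ))) = _
      rw [h1]
      field_simp
      ring
    have h3 : ‖E (mulI 𝕜 D (B a)) (α (g ξ))‖ ≤ c0 / 2 * ‖a‖ := by
      have h4 := ((ev 𝕜 (α (g ξ)) ∘L E) ∘L mulI 𝕜 D).le_opNorm (B a)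
      have h5 : ‖B a‖ ≤ ‖a‖ := by
        calc ‖B a‖ ≤ ‖B‖ * ‖a‖ := B.le_opNorm a
          _ ≤ 1 * ‖a‖ := mul_le_mul_of_nonneg_right hBn (norm_nonneg _)
          _ = ‖a‖ := one_mul _
      calc ‖E (mulI 𝕜 D (B a)) (α (g ξ))‖
          = ‖((ev 𝕜 (α (g ξ)) ∘L E) ∘L mulI 𝕜 D) (B a)‖ := rfl
        _ ≤ ‖(ev 𝕜 (α (g ξ)) ∘L E) ∘L mulI 𝕜 D‖ * ‖B a‖ := h4
        _ ≤ (c0 / 2) * ‖a‖ := mul_le_mul (hg ξ) h5 (norm_nonneg _) (by positivity)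
    rw [h2, norm_neg, norm_mul, norm_inv]
    have h6 : ‖m‖⁻¹ ≤ c0⁻¹ := inv_anti₀ hc0pos hmpos.le
    calc ‖m‖⁻¹ * ‖E (mulI 𝕜 D (B a)) (α (g ξ))‖ ≤ c0⁻¹ * (c0 / 2 * ‖a‖) :=
          mul_le_mul h6 h3 (norm_nonneg _) (by positivity)
      _ = 1 / 2 * ‖a‖ := by field_simp
  obtain ⟨W, hW⟩ : ∃ W : LI 𝕜 Δ →L[𝕜] LI 𝕜 Δ, W * (((c0 : 𝕜)⁻¹ • A) * E * B) = 1 := by
    have hlt : ‖(1 : LI 𝕜 Δ →L[𝕜] LI 𝕜 Δ) - ((c0 : 𝕜)⁻¹ • A) * E * B‖ < 1 :=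
      lt_of_le_of_lt hS (by norm_num)
    refine ⟨((Units.oneSub _ hlt)⁻¹ : (LI 𝕜 Δ →L[𝕜] LI 𝕜 Δ)ˣ), ?_⟩
    have h1 := (Units.oneSub _ hlt).inv_mul
    rw [Units.val_oneSub, sub_sub_cancel] at h1
    exact h1
  refine ⟨r ∘L Ψ B, Ψ (W * ((c0 : 𝕜)⁻¹ • A)) ∘L j, ?_⟩
  apply ContinuousLinearMap.ext
  intro y
  have h1 : W * ((c0 : 𝕜)⁻¹ • A) * (E * B) = 1 := by
    rw [← hW]
    simp only [mul_assoc]
  change Ψ (W * ((c0 : 𝕜)⁻¹ • A)) (j (r (Ψ B y))) = Ψ 1 y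
  have h2 : Ψ 1 y = Ψ (W * ((c0 : 𝕜)⁻¹ • A)) (Ψ (E * B) y) := by
    rw [← hmul, h1]
  rw [h2, hmul E B y, hE]
  rfl

end

end Pool.Agent.Shai
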