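import Mathlib
import Pool.Agent.shai.Tau

/-! The main contradiction. -/

open scoped ENNReal
open Cardinal

namespace Pool.Agent.Shai

universe u v

variable {𝕜 : Type*} [RCLike 𝕜] {Δ : Type u}

theorem small_biUnion (hinf : ℵ₀ ≤ #Δ) {ι : Type*} (s : Finset ι) (f : ι → Set Δ)
    (h : ∀ i ∈ s, #(f i) < #Δ) : #(⋃ i ∈ s, f i : Set Δ) < #Δ := by
  classical
  induction s using Finset.induction_on with
  | empty =>
    simp only [Finset.notMem_empty, Set.iUnion_of_empty, Set.iUnion_empty]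
    rw [mk_eq_zero]
    exact lt_of_lt_of_le aleph0_pos hinf
  | insert a s ha ih =>
    rw [Finset.set_biUnion_insert]
    refine lt_of_le_of_lt (mk_union_le _ _) ?_
    exact add_lt_of_lt hinf (h a (Finset.mem_insert_self a s))
      (ih fun i hi => h i (Finset.mem_insert_of_mem hi))

/-- the graph of a function, transported to `Δ` -/
def graphSet (θ : Δ × Δ ≃ Δ) (g : Δ → Δ) : Set Δ := Set.range fun β => θ (g β, β)

theorem graphSet_inter (θ : Δ × Δ ≃ Δ) (g g' : Δ → Δ) (h : #{β | g β = g' β} < #Δ) :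
    #(graphSet θ g ∩ graphSet θ g' : Set Δ) < #Δ := by
  have h1 : graphSet θ g ∩ graphSet θ g' ⊆ (fun β => θ (g β, β)) '' {β | g β = g' β} := by
    rintro _ ⟨⟨β, rfl⟩, ⟨β', hβ'⟩⟩
    have h2 := θ.injective hβ'
    rw [Prod.mk.injEq] at h2
    obtain ⟨h3, h4⟩ := h2
    subst h4
    exact ⟨β', h3.symm, rfl⟩
  exact lt_of_le_of_lt ((mk_le_mk_of_subset h1).trans mk_image_le) h

theorem rel_false {Y : Type v} [NormedAddCommGroup Y] [NormedSpace 𝕜 Y]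
    (hinf : ℵ₀ ≤ #Δ) (Ψ : (LI 𝕜 Δ →L[𝕜] LI 𝕜 Δ) →ₙₐ[𝕜] (Y →L[𝕜] Y)) (C : ℝ)
    (hC : 0 < C) (hΨ : ∀ S, ‖Ψ S‖ ≤ C * ‖S‖) (hp : Ψ 1 ≠ 0)
    (hsmall : ∀ A : Set Δ, #A < #Δ → Ψ (mulI 𝕜 A) = 0)
    (hsurj : ∀ T : Y →L[𝕜] Y, Ψ 1 * T * Ψ 1 = T → ∃ E, Ψ E = T) : False := by
  classical
  obtain ⟨θ⟩ : Nonempty (Δ × Δ ≃ Δ) := by
    rw [← Cardinal.eq, ← mul_def, mul_eq_self hinf]
  have : Infinite Δ := infinite_iff.mpr hinf
  obtain ⟨τ, κ, hτ⟩ := exists_tau θ Ψ C hinf hC hΨ hp hsurj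
  obtain ⟨G, hG, hGad⟩ := exists_family Δ hinf
  have hmul : ∀ S T y, Ψ (S * T) y = Ψ S (Ψ T y) := by
    intro S T y
    rw [map_mul]
    rfl
  obtain ⟨y0, hy0⟩ : ∃ y, Ψ 1 y ≠ 0 := by
    by_contra hcon
    push Not at hcon
    exact hp (ContinuousLinearMap.ext hcon)
  set y1 := Ψ 1 y0 with hy1
  have hpy1 : Ψ 1 y1 = y1 := by
    rw [hy1, ← hmul, mul_one]
  let S : LI 𝕜 Δ →L[𝕜] LI 𝕜 Δ := wc (fun γ => (θ.symm γ).2) (fun _ => (1 : 𝕜)) norm_one_le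
  let W : (Δ → Δ) → (LI 𝕜 Δ →L[𝕜] LI 𝕜 Δ) := fun g =>
    wc (fun β => θ (g β, β)) (fun _ => (1 : 𝕜)) norm_one_le
  have hWS : ∀ g, W g * (mulI 𝕜 (graphSet θ g) * S) = 1 := by
    intro g
    apply LI.opExt
    intro x β
    change W g (mulI 𝕜 (graphSet θ g) (S x)) β = x β
    simp only [W, S, wc_apply, one_mul]
    rw [mulI_apply_mem _ (show θ (g β, β) ∈ graphSet θ g from ⟨β, rfl⟩)]
    simp
  set y' := Ψ S y1 with hy'
  let U : (Δ → Δ) → Y := fun g => Ψ (mulI 𝕜 (graphSet θ g)) y'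
  have hWU : ∀ g, Ψ (W g) (U g) = y1 := by
    intro g
    simp only [U, hy']
    rw [← hmul, ← hmul, mul_assoc, hWS, hpy1]
  have hpU : ∀ g, Ψ 1 (U g) = U g := by
    intro g
    simp only [U]
    rw [← hmul, one_mul]
  have hτU : ∀ g, τ (U g) ≠ 0 := by
    intro g h0
    have h1 : U g = 0 := by
      rw [← hpU, ← hτ, ContinuousLinearMap.comp_apply, h0, map_zero]
    have h2 := hWU g
    rw [h1, map_zero] at h2
    exact hy0 h2.symm
  have hcoord : ∀ g, ∃ (i : Δ) (n : ℕ), 1 / ((n : ℝ) + 1) < ‖τ (U g) i‖ := by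
    intro g
    obtain ⟨i, hi⟩ : ∃ i, τ (U g) i ≠ 0 := by
      by_contra hcon
      push Not at hcon
      exact hτU g (LI.ext hcon)
    obtain ⟨n, hn⟩ := exists_nat_one_div_lt (norm_pos_iff.mpr hi)
    exact ⟨i, n, hn⟩
  choose ci cn hcn using hcoord
  -- pigeonhole
  have hcard : #(Δ × ULift.{u} ℕ) < #G := by
    rw [← mul_def]
    simp only [mk_uLift, mk_nat, lift_aleph0]
    rw [mul_aleph0_eq hinf]
    exact hG
  obtain ⟨⟨i, ⟨n⟩⟩, hfib⟩ := exists_infinite_fiber'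
    (fun g : G => ((ci g, ULift.up (cn g)) : Δ × ULift.{u} ℕ)) hcard
  set fib : Set G := (fun g : G => ((ci g, ULift.up (cn g)) : Δ × ULift.{u} ℕ)) ⁻¹' {(i, ⟨n⟩)}
    with hfibdef
  have hbig : ∀ g ∈ fib, 1 / ((n : ℝ) + 1) < ‖τ (U g) i‖ := by
    intro g hg
    have h1 : (ci g, ULift.up (cn g)) = (i, ⟨n⟩) := hg
    rw [Prod.mk.injEq] at h1
    obtain ⟨h2, h3⟩ := h1
    have h4 : cn g = n := congrArg ULift.down h3
    have := hcn g
    rw [h2, h4] at this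
    exact this
  obtain ⟨N, hN⟩ := exists_nat_gt ((‖τ‖ * C * ‖y'‖) * ((n : ℝ) + 1))
  obtain ⟨F0, hF0⟩ := Infinite.exists_subset_card_eq fib N
  -- the finite family of functions
  let emb : fib ↪ (Δ → Δ) := ⟨fun g : fib => ((g : G) : Δ → Δ), by
    intro a b hab
    exact Subtype.ext (Subtype.ext hab)⟩
  let F : Finset (Δ → Δ) := F0.map emb
  have hFcard : F.card = N := by
    rw [Finset.card_map, hF0]
  have hFG : ∀ g ∈ F, g ∈ G := by
    intro g hg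
    rw [Finset.mem_map] at hg
    obtain ⟨a, ha, rfl⟩ := hg
    exact (a : G).2
  have hFbig : ∀ g ∈ F, 1 / ((n : ℝ) + 1) < ‖τ (U g) i‖ := by
    intro g hg
    rw [Finset.mem_map] at hg
    obtain ⟨a, ha, rfl⟩ := hg
    exact hbig (a : G) a.2
  -- phases
  have hph : ∀ g, ∃ c : 𝕜, ‖c‖ = 1 ∧ ((‖τ (U g) i‖ : ℝ) : 𝕜) = c * τ (U g) i :=
    fun g => RCLike.exists_norm_eq_mul_self _
  choose c hc1 hc2 using hph
  -- the exceptional set
  let Z : Set Δ := ⋃ q ∈ F.offDiag, graphSet θ q.1 ∩ graphSet θ q.2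
  have hZ : #Z < #Δ := by
    apply small_biUnion hinf
    intro q hq
    rw [Finset.mem_offDiag] at hq
    exact graphSet_inter θ _ _ (hGad _ (hFG _ hq.1) _ (hFG _ hq.2.1) hq.2.2)
  have hsum : Ψ (∑ g ∈ F, c g • mulI 𝕜 (graphSet θ g)) =
      Ψ ((∑ g ∈ F, c g • mulI 𝕜 (graphSet θ g)) * mulI 𝕜 Zᶜ) := by
    have h1 : (1 : LI 𝕜 Δ →L[𝕜] LI 𝕜 Δ) = mulI 𝕜 Z + mulI 𝕜 Zᶜ := by
      rw [← mulI_union_disj disjoint_compl_right, Set.union_compl_self, mulI_univ]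
    conv_lhs => rw [← mul_one (∑ g ∈ F, c g • mulI 𝕜 (graphSet θ g)), h1, mul_add]
    rw [map_add, map_mul, hsmall Z hZ, mul_zero, zero_add]
  have hnorm : ‖(∑ g ∈ F, c g • mulI 𝕜 (graphSet θ g)) * mulI 𝕜 Zᶜ‖ ≤ 1 := by
    apply ContinuousLinearMap.opNorm_le_bound _ zero_le_one
    intro x
    rw [one_mul]
    apply LI.norm_le (norm_nonneg _)
    intro γ
    have happ : ((∑ g ∈ F, c g • mulI 𝕜 (graphSet θ g)) * mulI 𝕜 Zᶜ) x γ =
        ∑ g ∈ F, c g * (mulI 𝕜 (graphSet θ g) (mulI 𝕜 Zᶜ x)) γ := by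
      change ((∑ g ∈ F, c g • mulI 𝕜 (graphSet θ g)) (mulI 𝕜 Zᶜ x)) γ = _
      have h1 : ∀ (s : Finset (Δ → Δ)) (z : LI 𝕜 Δ),
          ((∑ g ∈ s, c g • mulI 𝕜 (graphSet θ g)) z) γ =
          ∑ g ∈ s, c g * (mulI 𝕜 (graphSet θ g) z) γ := by
        intro s z
        induction s using Finset.induction_on with
        | empty => simp
        | insert a s ha ih =>
          rw [Finset.sum_insert ha, Finset.sum_insert ha, ← ih]
          rfl
      exact h1 F _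
    rw [happ]
    by_cases hγ : γ ∈ Z
    · have h1 : ∀ g ∈ F, c g * (mulI 𝕜 (graphSet θ g) (mulI 𝕜 Zᶜ x)) γ = 0 := by
        intro g hg
        have h2 : mulI 𝕜 Zᶜ x γ = 0 := mulI_apply_not_mem _ (fun h => h hγ)
        simp [mulI_apply, hγ]
      rw [Finset.sum_eq_zero h1, norm_zero]
      exact norm_nonneg _
    · by_cases hex : ∃ g ∈ F, γ ∈ graphSet θ g
      · obtain ⟨g0, hg0, hγg0⟩ := hex
        rw [Finset.sum_eq_single_of_mem g0 hg0]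
        · rw [norm_mul, hc1, one_mul, mulI_apply_mem _ hγg0, mulI_apply_mem _ hγ]
          exact LI.norm_apply_le x γ
        · intro g hg hne
          have h1 : γ ∉ graphSet θ g := by
            intro h1
            apply hγ
            simp only [Z, Set.mem_iUnion]
            exact ⟨(g, g0), Finset.mem_offDiag.mpr ⟨hg, hg0, hne⟩, h1, hγg0⟩
          rw [mulI_apply_not_mem _ h1, mul_zero]
      · push Not at hex
        rw [Finset.sum_eq_zero, norm_zero]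
        · exact norm_nonneg _
        · intro g hg
          rw [mulI_apply_not_mem _ (hex g hg), mul_zero]
  -- evaluate
  have hval : ev 𝕜 i (τ (Ψ (∑ g ∈ F, c g • mulI 𝕜 (graphSet θ g)) y')) =
      ((∑ g ∈ F, ‖τ (U g) i‖ : ℝ) : 𝕜) := by
    have h1 : ∀ s : Finset (Δ → Δ), ev 𝕜 i (τ (Ψ (∑ g ∈ s, c g • mulI 𝕜 (graphSet θ g)) y')) =
      ((∑ g ∈ s, ‖τ (U g) i‖ : ℝ) : 𝕜) := by
      intro s
      induction s using Finset.induction_on with
      | empty => simp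
      | insert a s ha ih =>
        rw [Finset.sum_insert ha, Finset.sum_insert ha, map_add, map_smul, RCLike.ofReal_add,
          ← ih, hc2]
        change ev 𝕜 i (τ (c a • (Ψ (mulI 𝕜 (graphSet θ a))) y' + _)) = _
        rw [map_add, map_add, map_smul, map_smul]
        rfl
    exact h1 F
  have hupper : ∑ g ∈ F, ‖τ (U g) i‖ ≤ ‖τ‖ * C * ‖y'‖ := by
    have h0 : (0 : ℝ) ≤ ∑ g ∈ F, ‖τ (U g) i‖ := Finset.sum_nonneg fun g _ => norm_nonneg _
    calc ∑ g ∈ F, ‖τ (U g) i‖ = ‖((∑ g ∈ F, ‖τ (U g) i‖ : ℝ) : 𝕜)‖ := by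
          rw [RCLike.norm_ofReal, abs_of_nonneg h0]
      _ = ‖ev 𝕜 i (τ (Ψ (∑ g ∈ F, c g • mulI 𝕜 (graphSet θ g)) y'))‖ := by rw [hval]
      _ ≤ ‖τ (Ψ (∑ g ∈ F, c g • mulI 𝕜 (graphSet θ g)) y')‖ := LI.norm_apply_le _ _
      _ ≤ ‖τ‖ * ‖Ψ (∑ g ∈ F, c g • mulI 𝕜 (graphSet θ g)) y'‖ := τ.le_opNorm _
      _ ≤ ‖τ‖ * (‖Ψ (∑ g ∈ F, c g • mulI 𝕜 (graphSet θ g))‖ * ‖y'‖) :=
          mul_le_mul_of_nonneg_left (ContinuousLinearMap.le_opNorm _ _) (norm_nonneg _)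
      _ ≤ ‖τ‖ * ((C * 1) * ‖y'‖) := by
          apply mul_le_mul_of_nonneg_left _ (norm_nonneg _)
          apply mul_le_mul_of_nonneg_right _ (norm_nonneg _)
          rw [hsum]
          exact (hΨ _).trans (mul_le_mul_of_nonneg_left hnorm hC.le)
      _ = ‖τ‖ * C * ‖y'‖ := by ring
  have hlower : (N : ℝ) * (1 / ((n : ℝ) + 1)) ≤ ∑ g ∈ F, ‖τ (U g) i‖ := by
    have h1 := Finset.card_nsmul_le_sum F (fun g => ‖τ (U g) i‖) (1 / ((n : ℝ) + 1))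
      (fun g hg => (hFbig g hg).le)
    rw [hFcard, nsmul_eq_mul] at h1
    exact h1
  have hn0 : (0 : ℝ) < (n : ℝ) + 1 := by positivity
  have h1 := hlower.trans hupper
  rw [mul_one_div, div_le_iff₀ hn0] at h1
  linarith

end Pool.Agent.Shai
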